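import Pool.Agent.Helper58.QD.StG

/-!
# Project QD (MP_087a81_gt): module SMD (smooth approximation of a Lipschitz function with small error)
-/

set_option autoImplicit false

open Set Filter Topology MeasureTheory
open scoped ContDiff ENNReal Pointwise

noncomputable section

namespace Pool.Agent.Helper60.QD

open Helper62.LH Helper62.DSH Helper58.QD

/-- the scaled metric -/
def sc {n : ℕ} (N : ℝ) (g : E n → Bl n) : E n → Bl n := fun x => N ^ 2 • g x

theorem sc_apply {n : ℕ} (N : ℝ) (g : E n → Bl n) (x u v : E n) : sc N g x u v = N ^ 2 * g x u v := by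
  simp [sc]

theorem sc_met {n : ℕ} {N : ℝ} (hN : 0 < N) {g : E n → Bl n} (hg : IsMet g) : IsMet (sc N g) where
  smooth := hg.smooth.const_smul (N ^ 2)
  symm := by
    intro x u v
    rw [sc_apply, sc_apply, hg.symm]
  pos := by
    intro x v hv
    rw [sc_apply]
    have := hg.pos x v hv
    positivity

theorem sc_nr {n : ℕ} {N : ℝ} (hN : 0 < N) (g : E n → Bl n) (x v : E n) : nr (sc N g) x v = N * nr g x v := by
  unfold nr
  rw [sc_apply, Real.sqrt_mul (by positivity), Real.sqrt_sq hN.le]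

theorem sc_len {n : ℕ} {N : ℝ} (hN : 0 < N) (g : E n → Bl n) (c : ℝ → E n) : len (sc N g) c = N * len g c := by
  unfold len
  simp only [sc_nr hN]
  exact intervalIntegral.integral_const_mul _ _

theorem sc_dg {n : ℕ} {N : ℝ} (hN : 0 < N) (g : E n → Bl n) (x y : E n) : dg (sc N g) x y = N * dg g x y := by
  have h : {l : ℝ | ∃ c : ℝ → E n, ContDiff ℝ 1 c ∧ c 0 = x ∧ c 1 = y ∧ l = len (sc N g) c} =
      N • {l : ℝ | ∃ c : ℝ → E n, ContDiff ℝ 1 c ∧ c 0 = x ∧ c 1 = y ∧ l = len g c} := by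
    ext l
    rw [Set.mem_smul_set]
    constructor
    · rintro ⟨c, h1, h2, h3, h4⟩
      exact ⟨len g c, ⟨c, h1, h2, h3, rfl⟩, by rw [h4, sc_len hN, smul_eq_mul]⟩
    · rintro ⟨_, ⟨c, h1, h2, h3, rfl⟩, rfl⟩
      exact ⟨c, h1, h2, h3, by rw [sc_len hN, smul_eq_mul]⟩
  unfold dg
  rw [h, Real.sInf_smul_of_nonneg hN.le, smul_eq_mul]

theorem hSmd (hMet : StMet) (hDlc : StDlc) (hDel : StDel) (hSma : StSma) (hSmb : StSmb) : SSmd := by
  intro n g hg b hlip ε hε
  obtain ⟨⟨ρ, hρ⟩, hsmooth⟩ := hSma n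
  set N : ℝ := ε⁻¹ with hN
  have hN0 : 0 < N := inv_pos.2 hε
  have hg' := sc_met hN0 hg
  set b' : E n → ℝ := fun x => N * b x with hb'
  have hlip' : ∀ x y, |b' x - b' y| ≤ dg (sc N g) x y := by
    intro x y
    rw [sc_dg hN0]
    have : b' x - b' y = N * (b x - b y) := by rw [hb']; ring
    rw [this, abs_mul, abs_of_pos hN0]
    exact mul_le_mul_of_nonneg_left (hlip x y) hN0.le
  have hd0 : ∀ x, dg (sc N g) x x = 0 := (hMet n _ hg').2.2.2.1
  have hdc : Continuous (fun q : E n × E n => dg (sc N g) q.1 q.2) := (hDlc n _ hg').2.2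
  have hbc : Continuous b' := by
    rw [continuous_iff_continuousAt]
    intro x
    have h1 : Tendsto (fun y => dg (sc N g) x y) (𝓝 x) (𝓝 0) := by
      have h2 : Continuous (fun y : E n => dg (sc N g) x y) :=
        hdc.comp (by fun_prop : Continuous (fun y : E n => ((x, y) : E n × E n)))
      have h3 := h2.tendsto x
      rwa [hd0 x] at h3
    rw [ContinuousAt, tendsto_iff_dist_tendsto_zero]
    refine squeeze_zero (fun _ => dist_nonneg) (fun y => ?_) h1
    rw [Real.dist_eq, abs_sub_comm]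
    exact hlip' x y
  have hB := fun j : ℕ => hSmb n _ hg' ρ hρ b' hlip' (Metric.closedBall (0 : E n) ((j : ℝ) + 1))
    (isCompact_closedBall _ _)
  choose η hη hB1 using hB
  obtain ⟨δ, hδs, hδ⟩ := hDel n η hη
  have hδpos : ∀ x, 0 < δ x := fun x => (hδ x).1
  have hsm : ContDiff ℝ ∞ (sm ρ b' δ) := hsmooth ρ hρ b' δ hbc hδs hδpos
  have key : ∀ x, |sm ρ b' δ x - b' x| ≤ 1 ∧ ∀ v, |fderiv ℝ (sm ρ b' δ) x v| ≤ 2 * nr (sc N g) x v := by
    intro x
    obtain ⟨_, h2, h3, h4⟩ := hδ x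
    have hxK : x ∈ Metric.closedBall (0 : E n) ((⌊‖x‖⌋₊ : ℝ) + 1) := by
      rw [mem_closedBall_zero_iff]
      exact (Nat.lt_floor_add_one ‖x‖).le
    exact hB1 _ δ hδs hδpos x hxK h2 h3
  refine ⟨fun x => ε * sm ρ b' δ x, contDiff_const.mul hsm, fun x => ?_, fun x v => ?_⟩
  · have h1 : ε * sm ρ b' δ x - b x = ε * (sm ρ b' δ x - b' x) := by
      rw [hb', mul_sub, ← mul_assoc, hN, mul_inv_cancel₀ hε.ne', one_mul]
    rw [h1, abs_mul, abs_of_pos hε]
    calc ε * |sm ρ b' δ x - b' x| ≤ ε * 1 := mul_le_mul_of_nonneg_left (key x).1 hε.le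
      _ = ε := mul_one ε
  · have hd : DifferentiableAt ℝ (sm ρ b' δ) x := (hsm.differentiable (by simp)).differentiableAt
    have h1 : fderiv ℝ (fun x => ε * sm ρ b' δ x) x v = ε * fderiv ℝ (sm ρ b' δ) x v := by
      rw [fderiv_const_mul hd]
      simp
    rw [h1, abs_mul, abs_of_pos hε]
    have h2 := (key x).2 v
    rw [sc_nr hN0] at h2
    calc ε * |fderiv ℝ (sm ρ b' δ) x v| ≤ ε * (2 * (N * nr g x v)) := mul_le_mul_of_nonneg_left h2 hε.le
      _ = (ε * N) * (2 * nr g x v) := by ring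
      _ = 2 * nr g x v := by rw [hN, mul_inv_cancel₀ hε.ne', one_mul]

end Pool.Agent.Helper60.QD
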